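import Mathlib
import Pool.Agent.Lib.MP_6babc4_nt.Cy3.EFin

/-!
# Frey's height inequality for almost all cyclic covers of the projective line

`f = (f 1, ..., f (N - 1))` are polynomials over the ring of integers `𝓞 K` of a number field `K` whose
product has degree `n` and no multiple root; the curve is `y ^ N = f₁(x) f₂(x)^2 ... f_(N-1)(x)^(N-1)`.
Every geometrically irreducible cyclic cover of the projective line of degree `N` over `K` is of this form.

Definitions (in `Lib/MP_6babc4_nt/Cyc/Defs.lean`, `Cyc/KDef.lean`, `Cy3/EDef.lean`, `Sp/Defs.lean` and
`AvgDefs.lean`):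

* `FreyCyc.FamE K N n H`: the `f` with coefficients in `Box K H` (all conjugates at most `H`), whose
  product has degree `n` and no multiple root, such that the curve is geometrically irreducible.
* `FreyCyc.height N f`: the normalised Arakelov degree of the lattice spanned by the forms
  `x^a ∏ (f i)^[i j / N] dx / (N y^j)`, which contains the lattice of the Néron differentials: an upper bound
  for the Faltings height of the Jacobian up to a constant.
* `FreyCyc.BadE N f v`: `v` is not above `N`, and `v` is ramified in the splitting field of the product of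
  the `f i`, or some edge of the stable tree of the branch points violates one of the two
  conditions in `Fits`, or the Gauss valuation `gauss` is not divisible by `N`. If there are at least
  four branch points these are exactly the `v` not above `N` at which the Jacobian has bad
  reduction.
* `FreyCyc.condE N f`: the product of the norms of the `v` with `BadE N f v`.
* `FreyCyc.FreyE N κ c f`: `height N f ≤ κ log (|D_K| condE N f) + c`.
* `FreyCyc.IsoK N f g`: the two cyclic covers are isomorphic over `K`.
-/

open Polynomial NumberField Module FreyCyc

namespace Pool.Agent.Results.MP_6babc4_nt.AllCyclicCovers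

/-- **Frey's inequality for almost all cyclic covers of the projective line.** For all `d`, `n ≥ 3`, `N ≥ 3`
and `ε > 0` there are `B` and `c` such that for all `κ > 0` and `H ≥ 1` the following holds: apart from at
most `c H ^ (B / κ + ε)` of them, counted over all the number fields `K` of degree `d` together and up to
isomorphism over `K`, the curves `f` in `FamE K N n H` satisfy `height f ≤ κ log (|D_K| condE f) + c`. -/
theorem result (d n N : ℕ) (hN : 3 ≤ N) (hn : 3 ≤ n) (ε : ℝ) (hε : 0 < ε) :
    ∃ B c : ℝ, 0 < B ∧ ∀ κ : ℝ, 0 < κ → ∀ H : ℝ, 1 ≤ H →
      ∃ (𝒦 : Finset (IntermediateField ℚ (AlgebraicClosure ℚ)))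
        (T : ∀ K : IntermediateField ℚ (AlgebraicClosure ℚ), Finset (ℕ → (𝓞 K)[X])),
        (∑ K ∈ 𝒦, ((T K).card : ℝ)) ≤ c * H ^ (B / κ + ε) ∧
        ∀ (K : IntermediateField ℚ (AlgebraicClosure ℚ)) [NumberField K], finrank ℚ K = d →
          ∀ f ∈ FamE K N n H, ¬ FreyE N κ c f → K ∈ 𝒦 ∧ ∃ g ∈ T K, IsoK N f g :=
  allFrey d n N hN hn hε

end Pool.Agent.Results.MP_6babc4_nt.AllCyclicCovers
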