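import Mathlib
import Pool.Agent.Lib.MP_6babc4_nt.SH.Fi4
import Pool.Agent.Lib.MP_6babc4_nt.SH.Low

/-!
# Frey's height inequality for almost all abelian varieties, over every number field, in all dimensions

A principally polarised abelian variety of dimension `g` is given by a point `τ` of Siegel's upper half space;
it is represented by the vector of its theta constants `θ_b(τ)`, `b` in `𝔽₂^g` (its theta null point), a point of
projective space over a number field.

Definitions (in `Lib/MP_6babc4_nt/TN/Defs.lean`, `Lib/MP_6babc4_nt/TN/Dfn.lean` and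
`Lib/MP_6babc4_nt/SH/QDefs.lean`):

* `GI g = 𝔽₂^g`; `theta τ b = ∑ (-1)^(b.m) exp(π i mᵀ τ m)`, the sum over `m` in `ℤ^g`.
* `Siegel ρ τ`: `τ` is symmetric with positive definite imaginary part, and `Im(mᵀ τ m) ≥ ρ` for all `m ≠ 0`
  in `ℤ^g` (true for all Siegel reduced `τ`, with `ρ = √3 / 2`).
* `thetaSet τ`: the numbers `θ_b(2^j τ) / θ_c(τ)`, `θ_c(τ) ≠ 0`; they generate over `K` the theta field of `τ`.
* `QTow K r`: the subfields `F` of `ℂ` obtained from `K` by `r` square roots: `K = F₀`, `F = F_r`,
  `F_(i+1) = F_i(x)`, `x² ∈ F_i`.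
* `Bad K τ v`: `v` is not above `2` and is ramified in the theta field. (A subfield of the field of the torsion points
  of order a power of `2`: so `v` is a place of bad reduction.)
* `FreyT κ K τ u`: `h(u) ≤ κ log N`, where `N` is the product of the norms of finitely many bad primes of `K`, and
  `h(u) = Height.logHeight u / [F : ℚ]` is the absolute logarithmic height of the point `u` of projective space
  over `F`.
-/

open NumberField Module FreyTN FreySH

namespace Pool.Agent.Results.MP_6babc4_nt.AllDimensions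

/-- **Frey's inequality for almost all theta null points over towers of square roots over a number field.**
(1) For all `g`, `d`, `r` and `ρ, ε > 0` there are `A` and `c` such that for every number field `K` of degree `d`,
all `κ > 0` and `H ≥ 1` the following holds. Let `F` be a subfield of the theta field of `τ`, `Siegel ρ τ`,
obtained from `K` by `r` square roots, and `u` a point of projective space over `F`, proportional to the vector of
theta constants of `τ`, of height `h(u) ≤ log H`. Apart from at most `c |D_K| ^ A H ^ ((1 + ε) / κ + ε)` of them, all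
these points `u` satisfy `h(u) ≤ κ log N`. (2) If `g ≥ 1`, every number field `K` of degree `d` has at least
`c' H ^ (2 d min(g, 2) - ε)` of these points with `F = K`, for all large `H`. -/
theorem result (g d r : ℕ) (ρ ε : ℝ) (hρ : 0 < ρ) (hε : 0 < ε) :
    (∃ (A : ℕ) (c : ℝ), 0 < c ∧ ∀ (K : IntermediateField ℚ ℂ) [NumberField K], finrank ℚ K = d →
      ∀ κ : ℝ, 0 < κ → ∀ H : ℝ, 1 ≤ H → ∃ T : Finset (GI g → ℂ),
        (T.card : ℝ) ≤ c * |(discr K : ℝ)| ^ A * H ^ ((1 + ε) / κ + ε) ∧
        ∀ τ : Matrix (Fin g) (Fin g) ℂ, Siegel ρ τ → ∀ F ∈ QTow K r, ∀ [NumberField F],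
          (∀ x ∈ F, x ∈ IntermediateField.adjoin K (thetaSet τ)) →
          ∀ u : GI g → F, u ≠ 0 → (∀ a b, (u a : ℂ) * theta τ b = (u b : ℂ) * theta τ a) →
            Height.logHeight u / finrank ℚ F ≤ Real.log H → ¬ FreyT κ K τ u →
              ∃ w ∈ T, w ≠ 0 ∧ ∀ a b, (u a : ℂ) * w b = (u b : ℂ) * w a) ∧
    (1 ≤ g → ∀ (K : IntermediateField ℚ ℂ) [NumberField K], finrank ℚ K = d →
      ∃ c H₀ : ℝ, 0 < c ∧ ∀ H : ℝ, H₀ ≤ H →
        ∃ U : Finset (GI g → K), c * H ^ ((2 * min g 2 * d : ℕ) - ε) ≤ U.card ∧
          (∀ u ∈ U, ∀ w ∈ U, u ≠ w → ∃ a b, u a * w b ≠ u b * w a) ∧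
          ∀ u ∈ U, u ≠ 0 ∧ Height.logHeight u / d ≤ Real.log H ∧
            ∃ τ : Matrix (Fin g) (Fin g) ℂ, Siegel ρ τ ∧
              ∀ a b, (u a : ℂ) * theta τ b = (u b : ℂ) * theta τ a) :=
  ⟨frey_tower g d r hρ hε, fun hg K _ hd => by
    subst hd
    exact many_points_field g hg hρ hε K⟩

end Pool.Agent.Results.MP_6babc4_nt.AllDimensions
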