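import Mathlib
import Pool.Agent.Lib.MP_6babc4_nt.TF.Defs
import Pool.Agent.Lib.MP_6babc4_nt.TF.F2

/-!
# Frey's height inequality for almost all curves in every toric family

`A` is a finite set of exponents `(i, j)` that contains `(0, 0), (1, 0), (0, 1), (1, 1)`. A
coefficient vector `a : A → 𝓞 K` stands for the polynomial `F(x, y) = ∑ a_{ij} x^i y^j`. If `F` is
nondegenerate for its Newton polygon, the convex hull of `A`, then the curve `F = 0` has genus
`g = #inner A`, the number of interior lattice points, and the forms `x^(i-1) y^(j-1) dx / F_y`,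
`(i, j)` interior, are a basis of its holomorphic differentials. Examples: all plane curves of
degree `m` (`i + j ≤ m`), the hyperelliptic curves `a y² + b(x) y = f(x)`, the curves of bidegree
`(m, n)` on the product of two projective lines, trigonal curves on Hirzebruch surfaces.

Definitions (in `Lib/MP_6babc4_nt/TF/Defs.lean`, `AvgDefs.lean`, `TF/J0.lean` and `TF/F1.lean`):

* `FreyTor.height a`: `1 / (2 [K : ℚ])` times the sum over the complex embeddings `σ` of the
  logarithm of the volume of the unit ball, in `ℂ ^ g`, of the `L²` norm of the forms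
  `P_c dx / F_y`, `P_c = ∑ c_{ij} x^(i-1) y^(j-1)`, on the curve `σ F = 0`. Up to a constant that
  depends only on `g` this is the normalised Arakelov degree of the determinant of the lattice
  spanned by the forms `x^(i-1) y^(j-1) dx / F_y`, which contains the lattice of the Néron
  differentials of the Jacobian: it is an upper bound for the Faltings height, up to a constant.
* `FreyTor.Nodal a v`: the reduction of the curve modulo `v` has an ordinary double point with
  nonzero coordinates. The forms above have a nonzero residue there, so the double point is not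
  separating and the Jacobian has positive toric rank and bad reduction at `v`.
* `FreyTor.nodalConductor a`: the product of the norms of the nodal places; it divides the
  conductor of the Jacobian.
* `FreyTor.Frey κ c a`: `height a ≤ κ log (nodalConductor a) + c`.
* `FreyAvg.Box K H`: the algebraic integers of `K` all of whose conjugates are at most `H`.
* `FreyTor.Family K A l₁ l₂ H`: the `a` with `a_{ij} ∈ Box K (H ^ (1 - l₁ i - l₂ j))`.
* `FreyTor.pencil b t`: the coefficient vector of `t + G`, where `G` has the coefficients `b` and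
  no constant term; `Idx A` is `A` without `(0, 0)`, `Rg A` is the polynomial ring over `ℤ` in the
  variables indexed by `Idx A`.
* `FreyTor.wsum A l₁ l₂`: the sum of `1 - l₁ i - l₂ j` over the interior lattice points.
-/

open NumberField Module FreyTor

namespace Pool.Agent.Results.MP_6babc4_nt.AlmostAllToricCurves

universe u

/-- **Frey's inequality for almost all curves in toric families.** For every finite `A` containing
the unit square there is a nonzero integral polynomial `h` in the nonconstant coefficients such
that for every number field `K` of degree `d`, all weights `l₁, l₂ ≥ 0` with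
`l₁ i + l₂ j ≤ 1 - μ` on `A`, `μ > 0`, and all `κ, ε > 0` there is a constant `c` such that for
`H ≥ 1` the inequality `height F ≤ κ log (nodalConductor F) + c` holds for all the members `F` of
the family, with the exception of a proportion at most
`c (H ^ (s / κ - d + ε) + H ^ (- d μ))`, `s = wsum A l₁ l₂`, and, in each pencil `t + G` of the
family with `h(G) ≠ 0`, with the exception of a proportion at most `c H ^ (s / κ - d + ε)`. -/
theorem result (A : Finset (ℕ × ℕ))
    (h00 : (0, 0) ∈ A) (h10 : (1, 0) ∈ A) (h01 : (0, 1) ∈ A) (h11 : (1, 1) ∈ A) :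
    ∃ h : Rg A, h ≠ 0 ∧ ∀ (K : Type u) [Field K] [NumberField K] (l₁ l₂ μ : ℝ), 0 ≤ l₁ →
      0 ≤ l₂ → 0 < μ → (∀ w ∈ A, l₁ * (w.1 : ℝ) + l₂ * (w.2 : ℝ) + μ ≤ 1) →
      ∀ κ ε : ℝ, 0 < κ → 0 < ε → ∃ c : ℝ, ∀ H : ℝ, 1 ≤ H →
      (FreyAvg.Box K H).Finite ∧ (Family K A l₁ l₂ H).Finite ∧
      ({a ∈ Family K A l₁ l₂ H | ¬ Frey κ c a}.ncard : ℝ) ≤
        c * (H ^ (wsum A l₁ l₂ / κ - finrank ℚ K + ε) + H ^ (-((finrank ℚ K : ℝ) * μ))) *
          ((Family K A l₁ l₂ H).ncard : ℝ) ∧
      ∀ b : Idx A → 𝓞 K,
        (∀ w : Idx A, b w ∈ FreyAvg.Box K (H ^ (1 - l₁ * (w.1.1 : ℝ) - l₂ * (w.1.2 : ℝ)))) →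
        MvPolynomial.eval₂ (Int.castRingHom (𝓞 K)) b h ≠ 0 →
        ({t ∈ FreyAvg.Box K H | ¬ Frey κ c (pencil (A := A) b t)}.ncard : ℝ) ≤
          c * H ^ (wsum A l₁ l₂ / κ - finrank ℚ K + ε) * ((FreyAvg.Box K H).ncard : ℝ) :=
  FreyTor.main A h00 h10 h01 h11

end Pool.Agent.Results.MP_6babc4_nt.AlmostAllToricCurves
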