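import Mathlib
import Pool.Agent.Lib.MP_6babc4_nt.G2.Brg

/-!
# Frey's height inequality for almost all curves of genus two

`f` is a polynomial of degree `5` or `6` over the ring of integers `𝓞 K` of a number field `K`, without multiple
roots; the curve is `y ^ 2 = f(x)`. Every curve of genus two over `K` is of this form.

Definitions (in `Lib/MP_6babc4_nt/G2/Gen.lean`; `Sp/Defs.lean`, `AvgDefs.lean`, `Cyc/Defs.lean`, `Cy3/EDef.lean`):

* `FreyTwo.Fam K H`: the `f` of degree `5` or `6` without multiple roots, all conjugates of the coefficients
  at most `H`.
* `FreyAvg.height 2 f`: minus `1 / (2 d)` times the sum over the embeddings `σ` of `log |det G(σ f)|`, `G` the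
  Gram matrix of the forms `dx / (2 y)`, `x dx / (2 y)`: the Arakelov degree of a lattice that contains the
  Néron differentials, an upper bound for the Faltings height of the Jacobian up to a constant.
* `FreyTwo.Bad f v`: `v` is not above `2`, and is ramified in the splitting field, or some edge of the stable
  tree of the six branch points does not have three points on each side and an even thickness, or the
  order `gauss` of the right hand side in a reduced coordinate is odd. These are exactly the primes not above `2` at
  which the JACOBIAN has bad reduction; a reduction of the curve to two elliptic curves that meet in a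
  point is good.
* `FreyTwo.cond f`: the product of the norms of the bad primes.
* `FreyTwo.Frey κ c f`: `height f ≤ κ log (|D_K| cond f) + c`.
* `FreyTwo.Iso f g`: the two curves are isomorphic over `K`.
-/

open Polynomial NumberField Module FreyTwo

namespace Pool.Agent.Results.MP_6babc4_nt.GenusTwo

/-- **Frey's inequality for almost all curves of genus two.** For all `d` and `ε > 0` there are `B` and `c` such
that for all `κ > 0` and `H ≥ 1` the following holds: apart from at most `c H ^ (B / κ + ε)` of them, counted
over all the number fields `K` of degree `d` together and up to isomorphism over `K`, the curves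
`y ^ 2 = f(x)` of genus two, `f ∈ Fam K H`, satisfy `height f ≤ κ log (|D_K| cond f) + c`. -/
theorem result (d : ℕ) (ε : ℝ) (hε : 0 < ε) :
    ∃ B c : ℝ, 0 < B ∧ ∀ κ : ℝ, 0 < κ → ∀ H : ℝ, 1 ≤ H →
      ∃ (𝒦 : Finset (IntermediateField ℚ (AlgebraicClosure ℚ)))
        (T : ∀ K : IntermediateField ℚ (AlgebraicClosure ℚ), Finset (𝓞 K)[X]),
        (∑ K ∈ 𝒦, ((T K).card : ℝ)) ≤ c * H ^ (B / κ + ε) ∧
        ∀ (K : IntermediateField ℚ (AlgebraicClosure ℚ)) [NumberField K], finrank ℚ K = d →
          ∀ f ∈ Fam K H, ¬ Frey κ c f → K ∈ 𝒦 ∧ ∃ g ∈ T K, Iso f g :=
  genus_two d hε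

end Pool.Agent.Results.MP_6babc4_nt.GenusTwo
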